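import Mathlib
import Pool.Agent.Results.MP_309968_ag.BoundaryRays
import Pool.Agent.J4.H9.AR.Form

set_option autoImplicit false

/-!
# Nef classes whose coefficients form few clusters

For `n` very general points of the plane (`n` arbitrary) we consider real classes
`D = c H - ∑ x_i E_i`, `x_i ≥ 0`, `c > 0`.

* Criterion. Let `0 ≤ x_i ≤ M`, `1100 M ^ 2 ≤ c ^ 2`, `D ^ 2 ≥ 0`. Then `D` is nef unless `x` is close
  to a separated vector with many values: there are `s > 0` and `v ≥ 0`, any two different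
  coordinates of which differ by at least `s`, with at least `c ^ 2 / (67 M ^ 2) - 1` different
  nonzero coordinates, such that `∑ (x_i - v_i) ^ 2 + D ^ 2 < s ^ 2`.
* Clusters. Let `0 ≤ x_i ≤ M` be divided into `N ≤ c ^ 2 / (68 M ^ 2) - 17` classes of diameter at
  most `ρ`. Then `D` is nef if `D ^ 2 = c ^ 2 - ∑ x_i ^ 2 ≥ 4 ρ ^ 2`, for any number of points. For
  example, if all coefficients are in `[M - ρ, M]` and `c ^ 2 ≥ 1224 M ^ 2`.
* Large coefficients. The same holds (with other constants) if some coefficients are larger than `M`,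
  `10 ^ 6 ∑_{x_i > M} x_i ^ 2 ≤ c ^ 2`, and those at most `M` are divided into
  `N ≤ c ^ 2 / (50000 M ^ 2)` classes of diameter at most `ρ`, `10 ^ 7 M ^ 2 ≤ c ^ 2`. Without
  classes: `D` is nef if `D ^ 2 ≥ 11 * 10 ^ 9 * M ^ 6 / c ^ 4`.
* Dually, let `F = 0` be a plane curve of degree `e`, possibly reducible or not reduced, with
  multiplicities `m_i` at the points, `Q = ∑ m_i ^ 2`. Then `e ^ 2 ≥ Q - 4 ρ ^ 2`, if the
  multiplicities satisfy these conditions with `√Q` for `c`; and `e ^ 2 ≥ Q - 11 * 10 ^ 9 * M ^ 6 / Q ^ 2`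
  if `10 ^ 6 ∑_{m_i > M} m_i ^ 2 ≤ Q`, `10 ^ 7 M ^ 2 ≤ Q`.

The Harbourne-Hirschowitz conjecture (Q1) predicts that these classes are nef if `D ^ 2 ≥ 0`.

The starting results `FewCoefficients` and `SexticDistance` are about classes with ALL coefficients
at most `M`: those with `D ^ 2 = 0` and at most about `c ^ 2 / (16 M ^ 2)` different coefficients are
nef, and so are all with `D ^ 2 ≥ 700 M ^ 6 / c ^ 4`. The clusters are between these cases (many
different coefficients which are close to few numbers), and the last statements do not bound the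
largest coefficients.

Proof. Let `G` be irreducible of degree `e` with the multiplicities `u_i` and `D G < 0`, let
`k = - G ^ 2 > 0` and `t = e / c`. Then `∑ (u_i - t x_i) ^ 2 + t ^ 2 D ^ 2 < k`. Different
multiplicities differ by at least `√k` (the conjugates of `G` meet `G` nonnegatively), so `v = u / t`
and `s = √k / t` are as in the criterion; the number of the values is large by `FewCoefficients`, as
`G ^ 2 < 0`. If `x_i` and `x_j` are in one cluster and `v_i ≠ v_j` then `2 ρ ≤ s` implies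
`(x_i - v_i) ^ 2 + (x_j - v_j) ^ 2 ≥ s ^ 2 / 8`. So there are at most eight disjoint such pairs, and
`v` has at most `N + 16` values, a contradiction. If there are large coefficients, `FewCoefficients`
is replaced by the calculus of pieces (`Pool.Agent.J4.H9.AR.dominated_few`).
-/

namespace Pool.Agent.Results.MP_309968_ag.ClusteredCoefficients

open Finset
open Pool.Agent.Results.MP_309968_ag.BoundaryRays (MultGE curveClasses curvCone cone_le)

/-- The coefficients at most `M` lie in `N` classes of diameter at most `ρ`. -/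
def Clusters {n : ℕ} (x : Fin n → ℝ) (M ρ : ℝ) (N : ℕ) : Prop :=
  ∃ lab : Fin n → Fin N, ∀ i j, lab i = lab j → x i ≤ M → x j ≤ M → x i - x j ≤ ρ

/-- Either all coefficients are at most `M` and `N ≤ c ^ 2 / (68 M ^ 2) - 17`, or those larger than
`M` are a small part of `c ^ 2` and `N ≤ c ^ 2 / (50000 M ^ 2)`, `M ^ 2 ≤ c ^ 2 / 10 ^ 7`. -/
def Admissible {n : ℕ} (x : Fin n → ℝ) (c M : ℝ) (N : ℕ) : Prop :=
  (∀ i, x i ≤ M) ∧ 68 * ((N + 17) * M ^ 2) ≤ c ^ 2 ∨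
    10 ^ 6 * ∑ i with M < x i, x i ^ 2 ≤ c ^ 2 ∧ 10 ^ 7 * M ^ 2 ≤ c ^ 2 ∧
      50000 * (N * M ^ 2) ≤ c ^ 2

/-- the passage from nef classes to curves -/
theorem self_le {Q c e t : ℝ} (hQ : 0 ≤ Q) (ht : 0 ≤ t) (he : 0 ≤ e) (hc : c ^ 2 = Q + t)
    (h : Q ≤ c * e) : Q ≤ e ^ 2 + t := by
  have h4 : Q ^ 2 ≤ (Q + t) * e ^ 2 := by
    rw [← hc, ← mul_pow]
    exact pow_le_pow_left₀ hQ h 2
  by_contra hcon
  push Not at hcon
  have h0 : 0 < Q + t := by nlinarith [sq_nonneg e]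
  have h5 : (Q + t) * e ^ 2 < (Q + t) * (Q - t) :=
    mul_lt_mul_of_pos_left (by linarith) h0
  nlinarith [sq_nonneg t]

theorem adm_mono {n : ℕ} {x : Fin n → ℝ} {c c' M : ℝ} {N : ℕ} (h : Admissible x c M N)
    (hc : c ^ 2 ≤ c' ^ 2) : Admissible x c' M N := by
  rcases h with ⟨h1, h2⟩ | ⟨h1, h2, h3⟩
  · exact Or.inl ⟨h1, h2.trans hc⟩
  · exact Or.inr ⟨h1.trans hc, h2.trans hc, h3.trans hc⟩

/-- the inequality for all forms -/
theorem form_le (n : ℕ) : ∃ f : ℕ → MvPolynomial (Fin n × Fin 2) ℂ, (∀ k, f k ≠ 0) ∧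
    ∀ p : Fin n → Fin 2 → ℂ,
      (∀ k, MvPolynomial.eval (fun q : Fin n × Fin 2 => p q.1 q.2) (f k) ≠ 0) →
      (∀ (x : Fin n → ℝ) (c M ρ : ℝ) (N : ℕ), 0 < M → 0 < c → 0 ≤ ρ → (∀ i, 0 ≤ x i) →
        Clusters x M ρ N → Admissible x c M N → ∑ i, x i ^ 2 + 4 * ρ ^ 2 ≤ c ^ 2 →
        ∀ (F : MvPolynomial (Fin 3) ℂ) (e : ℕ) (m : Fin n → ℕ), F.IsHomogeneous e → F ≠ 0 →
          (∀ i, MultGE (p i) F (m i)) → ∑ j, x j * (m j : ℝ) ≤ c * e) ∧
      ∀ (x : Fin n → ℝ) (c M : ℝ), 0 < M → 0 < c → (∀ i, 0 ≤ x i) → (∀ i, x i ≤ M) →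
        1100 * M ^ 2 ≤ c ^ 2 → ∑ i, x i ^ 2 ≤ c ^ 2 →
        (∀ (s : ℝ) (v : Fin n → ℝ), 0 < s → (∀ i, 0 ≤ v i) →
          (∀ i j, v i ≠ v j → s ≤ |v i - v j|) →
          c ^ 2 ≤ 67 * (((((univ.image v).erase 0).card : ℝ) + 1) * M ^ 2) →
          s ^ 2 ≤ c ^ 2 - ∑ i, x i ^ 2 + ∑ i, (x i - v i) ^ 2) →
        ∀ (F : MvPolynomial (Fin 3) ℂ) (e : ℕ) (m : Fin n → ℕ), F.IsHomogeneous e → F ≠ 0 →
          (∀ i, MultGE (p i) F (m i)) → ∑ j, x j * (m j : ℝ) ≤ c * e := by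
  obtain ⟨f, hf, hf'⟩ := J4.H9.AR.form_cl n
  refine ⟨f, hf, fun p hp => ⟨?_, (hf' p hp).2⟩⟩
  intro x c M ρ N hM hc hρ hx0 hcl hadm hD
  rcases hadm with ⟨hxM, hN⟩ | ⟨h1, h2, h3⟩
  · have hM2 : 0 < M ^ 2 := by positivity
    have hN0 : (0 : ℝ) ≤ N * M ^ 2 := by positivity
    obtain ⟨lab, hlab⟩ := hcl
    refine (hf' p hp).2 x c M hM hc hx0 hxM (by linarith) (by nlinarith [sq_nonneg ρ])
      fun s v hs hv0 hsep hr => ?_
    exact J4.H9.AR.crit_clusters lab hM hN (fun i j hij => hlab i j hij (hxM i) (hxM j)) hD s v hs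
      hsep hr
  · exact (hf' p hp).1 x c M ρ N hM hc hρ ⟨hx0, h1, h2, h3, hcl⟩ hD

theorem result (n : ℕ) :
    ∃ f : ℕ → MvPolynomial (Fin n × Fin 2) ℂ, (∀ j, f j ≠ 0) ∧
      ∀ p : Fin n → Fin 2 → ℂ,
        (∀ j, MvPolynomial.eval (fun q : Fin n × Fin 2 => p q.1 q.2) (f j) ≠ 0) →
        (∀ (x : Fin n → ℝ) (c M : ℝ), 0 < M → 0 < c → (∀ i, 0 ≤ x i) →
          -- the criterion
          ((∀ i, x i ≤ M) → 1100 * M ^ 2 ≤ c ^ 2 → ∑ i, x i ^ 2 ≤ c ^ 2 →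
            (∀ (s : ℝ) (v : Fin n → ℝ), 0 < s → (∀ i, 0 ≤ v i) →
              (∀ i j, v i ≠ v j → s ≤ |v i - v j|) →
              c ^ 2 ≤ 67 * (((((univ.image v).erase 0).card : ℝ) + 1) * M ^ 2) →
              s ^ 2 ≤ c ^ 2 - ∑ i, x i ^ 2 + ∑ i, (x i - v i) ^ 2) →
            ∀ z ∈ curvCone p, ∑ j, x j * z.2 j ≤ c * z.1) ∧
          -- clusters
          (∀ (ρ : ℝ) (N : ℕ), 0 ≤ ρ → Clusters x M ρ N → Admissible x c M N →
            ∑ i, x i ^ 2 + 4 * ρ ^ 2 ≤ c ^ 2 →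
            ∀ z ∈ curvCone p, ∑ j, x j * z.2 j ≤ c * z.1) ∧
          -- arbitrary coefficients
          (10 ^ 6 * ∑ i with M < x i, x i ^ 2 ≤ c ^ 2 → 10 ^ 7 * M ^ 2 ≤ c ^ 2 →
            ∑ i, x i ^ 2 + 11 * 10 ^ 9 * M ^ 6 / c ^ 4 ≤ c ^ 2 →
            ∀ z ∈ curvCone p, ∑ j, x j * z.2 j ≤ c * z.1)) ∧
        -- the self-intersection of curves
        ∀ (F : MvPolynomial (Fin 3) ℂ) (e : ℕ) (m : Fin n → ℕ), F.IsHomogeneous e → F ≠ 0 →
          (∀ i, MultGE (p i) F (m i)) → ∀ (M Q : ℝ), 0 < M → Q = ∑ i, (m i : ℝ) ^ 2 →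
          (∀ (ρ : ℝ) (N : ℕ), 0 ≤ ρ → Clusters (fun i => (m i : ℝ)) M ρ N →
            Admissible (fun i => (m i : ℝ)) √Q M N → Q ≤ (e : ℝ) ^ 2 + 4 * ρ ^ 2) ∧
          (10 ^ 6 * ∑ i with M < (m i : ℝ), (m i : ℝ) ^ 2 ≤ Q → 10 ^ 7 * M ^ 2 ≤ Q →
            Q ≤ (e : ℝ) ^ 2 + 11 * 10 ^ 9 * M ^ 6 / Q ^ 2) := by
  classical
  obtain ⟨f, hf, hf'⟩ := form_le n
  refine ⟨f, hf, fun p hp => ⟨?_, ?_⟩⟩
  · intro x c M hM hc hx
    have hcone : (∀ (F : MvPolynomial (Fin 3) ℂ) (e : ℕ) (m : Fin n → ℕ), F.IsHomogeneous e →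
        F ≠ 0 → (∀ i, MultGE (p i) F (m i)) → ∑ j, x j * (m j : ℝ) ≤ c * e) →
        ∀ z ∈ curvCone p, ∑ j, x j * z.2 j ≤ c * z.1 := by
      intro h0
      have h := cone_le (p := p) (l := x) (g := id) (c := c) hx
        fun F e m hF he hF0 hm => by
          have h1 := h0 F e m hF hF0 hm
          simp only [id]
          linarith
      simpa using h
    refine ⟨fun hxM hA hD hcrit => hcone ((hf' p hp).2 x c M hM hc hx hxM hA hD hcrit),
      fun ρ N hρ hcl hadm hD => hcone ((hf' p hp).1 x c M ρ N hM hc hρ hx hcl hadm hD),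
      fun hl hs hD => ?_⟩
    obtain ⟨ρ, N, hρ, hcl, h4⟩ := J4.H9.AR.clustered_div hM hc hx hl hs
    exact hcone ((hf' p hp).1 x c M ρ N hM hc hρ hx hcl.classes
      (Or.inr ⟨hcl.large, hcl.small, hcl.few⟩) (by linarith))
  · intro F e m hF hF0 hm M Q hM hQ
    have hmm : ∑ j, (m j : ℝ) * (m j : ℝ) = Q := by
      rw [hQ]
      exact Finset.sum_congr rfl fun j _ => by ring
    have hQ0 : 0 ≤ Q := by rw [hQ]; positivity
    have hm0 : ∀ i, (0 : ℝ) ≤ (m i : ℝ) := fun i => Nat.cast_nonneg _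
    have hM2 : 0 < M ^ 2 := by positivity
    refine ⟨fun ρ N hρ hcl hadm => ?_, fun hl hs => ?_⟩
    · have hsq : √Q ^ 2 = Q := Real.sq_sqrt hQ0
      have hρ2 : 0 ≤ 4 * ρ ^ 2 := by positivity
      obtain ⟨c, hc⟩ : ∃ c, c = √(Q + 4 * ρ ^ 2) := ⟨_, rfl⟩
      have hc2 : c ^ 2 = Q + 4 * ρ ^ 2 := by rw [hc, Real.sq_sqrt (by positivity)]
      have hQ1 : 0 < Q := by
        rcases hadm with ⟨-, h⟩ | ⟨-, h, -⟩
        · rw [hsq] at h
          have : (0 : ℝ) < (N + 17) * M ^ 2 := by positivity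
          linarith
        · rw [hsq] at h
          linarith
      have hc0 : 0 < c := by rw [hc]; positivity
      have h6 := (hf' p hp).1 (fun i => (m i : ℝ)) c M ρ N hM hc0 hρ hm0 hcl
        (adm_mono hadm (by rw [hsq, hc2]; linarith)) (by rw [← hQ, hc2]) F e m hF hF0 hm
      rw [hmm] at h6
      exact self_le hQ0 hρ2 (Nat.cast_nonneg e) hc2 h6
    · have hQ1 : 0 < Q := by linarith
      obtain ⟨t, ht⟩ : ∃ t, t = 11 * 10 ^ 9 * M ^ 6 / Q ^ 2 := ⟨_, rfl⟩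
      rw [← ht]
      have ht0 : 0 ≤ t := by rw [ht]; positivity
      obtain ⟨c, hc⟩ : ∃ c, c = √(Q + t) := ⟨_, rfl⟩
      have hc2 : c ^ 2 = Q + t := by rw [hc, Real.sq_sqrt (by positivity)]
      have hc0 : 0 < c := by rw [hc]; positivity
      obtain ⟨ρ, N, hρ, hcl, h4⟩ := J4.H9.AR.clustered_div (x := fun i => (m i : ℝ)) hM hc0 hm0
        (by linarith) (by linarith)
      have h5 : 11 * 10 ^ 9 * M ^ 6 / c ^ 4 ≤ t := by
        rw [ht]
        apply div_le_div_of_nonneg_left (by positivity) (by positivity)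
        have e1 : c ^ 4 = (c ^ 2) ^ 2 := by ring
        rw [e1]
        exact pow_le_pow_left₀ hQ0 (by linarith) 2
      have h6 := (hf' p hp).1 (fun i => (m i : ℝ)) c M ρ N hM hc0 hρ hm0 hcl.classes
        (Or.inr ⟨hcl.large, hcl.small, hcl.few⟩) (by
        rw [← hQ, hc2]
        linarith) F e m hF hF0 hm
      rw [hmm] at h6
      exact self_le hQ0 ht0 (Nat.cast_nonneg e) hc2 h6

end Pool.Agent.Results.MP_309968_ag.ClusteredCoefficients
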