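import Mathlib
import Pool.Agent.J4.H6.KC.Sum
import Pool.Agent.TH167.TT.Irr2
import Pool.Agent.TH167.SH.Fam

set_option autoImplicit false

/-!
# A multiplicity of a negative curve bounds its genus

Let `X` be the blow-up of the complex projective plane at `n ≥ 4` very general points and let `C` be
an irreducible curve with `C ^ 2 < 0`, of degree `d` and with the multiplicities `m i` at the points.
Then for EVERY `i` with `m i ≥ 3`

`2 p_a (C) - 2 = C ^ 2 + K C ≤ 2 (m i - 1) (4 (m i) ^ 2 - 6 m i + 1)`, `C ^ 2 ≥ - m i`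

(a bound of Castelnuovo type, for the systems `|κ (C + m i E_i)|`). The closed cone of curves is
generated, as a closed convex cone, by the positive cone, the `(-1)`-curves and the curves `C` with
`C ^ 2 < 0` which are not `(-1)`-curves; each of these is carried by quadratic transformations to a
standard class `(e; u)` of an irreducible curve at other very general points with a multiplicity
`u i ≥ 2`; the sum of the multiplicities outside of some nine points is less than `2 K C`, and for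
EVERY `i` with `u i ≥ 2`: `u i ≥ 4`, `2 ≤ K C ≤ 8 (u i) ^ 3 - 262`, `e < 96 (u i) ^ 6`, and at most
`16 (u i) ^ 2 + 9` of the multiplicities are positive. So for every `m` the standard classes of
these curves with a multiplicity between `2` and `m` are finite in number, up to the order of the
multiplicities and up to zeros, for all numbers of points together.
-/

namespace Pool.Agent.Results.MP_309968_ag.NegativeCurvesGenus

open MvPolynomial Finset Pool.Agent.TH167 Pool.Agent.TH167.SHDefs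

/-- The classes (in the coordinates degree, multiplicities) of the irreducible curves on the
blow-up of the plane at the points `p i = (p i 0 : p i 1 : 1)`: the class `(d; m)` of the proper
transform of an irreducible plane curve of degree `d` whose multiplicity at `p i` is exactly `m i`,
and the classes `(0; -e_i)` of the exceptional curves. -/
def curveClasses {n : ℕ} (p : Fin n → Fin 2 → ℂ) : Set (ℝ × (Fin n → ℝ)) :=
  {v : ℝ × (Fin n → ℝ) | ∃ (F : MvPolynomial (Fin 3) ℂ) (d : ℕ) (m : Fin n → ℕ),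
      Curve p F d m ∧ v = ((d : ℝ), fun i => (m i : ℝ))} ∪
    {v : ℝ × (Fin n → ℝ) | ∃ i : Fin n,
      v = ((0 : ℝ), (Pi.single i (-1 : ℝ) : Fin n → ℝ))}

/-- The classes of the `(-1)`-curves. -/
def minusOneClasses {n : ℕ} (p : Fin n → Fin 2 → ℂ) : Set (ℝ × (Fin n → ℝ)) :=
  {v | v ∈ curveClasses p ∧ v.1 ^ 2 - ∑ i, v.2 i ^ 2 = -1 ∧ -3 * v.1 + ∑ i, v.2 i = -1}

/-- The positive cone. -/
def positive (n : ℕ) : Set (ℝ × (Fin n → ℝ)) := {v | 0 ≤ v.1 ∧ ∑ i, v.2 i ^ 2 ≤ v.1 ^ 2}

/-- The class is standard. -/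
def Standard {n : ℕ} (d : ℕ) (w : Fin n → ℕ) : Prop :=
  ∀ i j k : Fin n, i ≠ j → i ≠ k → j ≠ k → w i + w j + w k ≤ d

/-- The inequalities for a class `C = (e; u)`: every multiplicity `u i ≥ 2` (there is one) bounds the
class. Here `inter e u e u = C ^ 2` and `interK e u = K C`. -/
def Bounded {n : ℕ} (e : ℕ) (u : Fin n → ℕ) : Prop :=
  (∃ i, 2 ≤ u i) ∧
    (∃ T : Finset (Fin n), T.card = 9 ∧ ∑ j ∈ Tᶜ, (u j : ℤ) < 2 * interK e u) ∧
    ∀ i, 2 ≤ u i → 4 ≤ u i ∧ -(u i : ℤ) ≤ inter e u e u ∧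
      inter e u e u + interK e u ≤ 2 * ((u i : ℤ) - 1) * (4 * (u i : ℤ) ^ 2 - 6 * u i + 1) ∧
      2 ≤ interK e u ∧ interK e u ≤ 8 * (u i : ℤ) ^ 3 - 262 ∧ e < 96 * (u i) ^ 6 ∧
      (univ.filter fun j => u j ≠ 0).card ≤ 16 * (u i) ^ 2 + 9

/-- Classes `(d; m)` of irreducible curves `C` with `C ^ 2 < 0` which are not `(-1)`-curves,
carried by quadratic transformations to a standard class `(e; u)`, `e ≤ d`, `u i ≤ m i`, of an
irreducible curve at other points (outside of the same hypersurfaces `Z k`), which satisfies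
`Bounded`. -/
def furtherClasses {n : ℕ} (Z : ℕ → MvPolynomial (Fin n × Fin 2) ℂ) (p : Fin n → Fin 2 → ℂ) :
    Set (ℝ × (Fin n → ℝ)) :=
  {x | ∃ (F : MvPolynomial (Fin 3) ℂ) (d : ℕ) (m : Fin n → ℕ),
    Curve p F d m ∧ inter d m d m < 0 ∧ ¬ MinusOne p F d m ∧
    (∃ (q : Fin n → Fin 2 → ℂ) (e : ℕ) (u : Fin n → ℕ) (H : MvPolynomial (Fin 3) ℂ),
      (∀ k, MvPolynomial.eval (fun ij : Fin n × Fin 2 => q ij.1 ij.2) (Z k) ≠ 0) ∧
      Curve q H e u ∧ Relation.ReflTransGen Quadratic (d, m) (e, u) ∧ Standard e u ∧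
      e ≤ d ∧ (∀ i, u i ≤ m i) ∧ Bounded e u) ∧
    x = ((d : ℝ), fun i => (m i : ℝ))}

/-- The closed convex cone generated by a set. -/
def closedCone {n : ℕ} (S : Set (ℝ × (Fin n → ℝ))) : Set (ℝ × (Fin n → ℝ)) :=
  closure ((Submodule.span {c : ℝ // 0 ≤ c} S : Set (ℝ × (Fin n → ℝ))))

open Pool.Agent.W609 Pool.Agent.W609.CR Pool.Agent.TH167.SH Pool.Agent.TH167.TT Pool.Agent.TH167.T3 Pool.Agent.TH167.DD in
theorem two_le_deg {r : ℕ} {d : ℕ} {w : Fin (r + 4) → ℕ} {p : Fin (r + 4) → Fin 2 → ℂ}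
    {G : MvPolynomial (Fin 3) ℂ} (hG : Irreducible G) (hGd : G.IsHomogeneous d)
    (hord : ∀ j, Ord (aff (p j)) (w j) G) {i : Fin (r + 4)} (hi : 2 ≤ w i) : 2 ≤ d :=
  hi.trans (van_le hG.ne_zero hGd (hord i).1)

open Pool.Agent.W609 Pool.Agent.W609.CR Pool.Agent.TH167.SH Pool.Agent.TH167.TT Pool.Agent.TH167.T3 Pool.Agent.TH167.DD in
theorem bounded_of {r : ℕ} {P : Fin (r + 4) → Fin 2 → ℂ}
    (hP : AlgebraicIndependent ℚ (fun ij : Fin (r + 4) × Fin 2 => P ij.1 ij.2)) {e : ℕ}
    {u : Fin (r + 4) → ℕ} {H : MvPolynomial (Fin 3) ℂ} (hH : Irreducible H)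
    (hHe : H.IsHomogeneous e) (hord : ∀ j, Ord (aff (P j)) (u j) H)
    (hred : SH.Reduced e u) (hneg : SH.ip e u e u < 0) : Bounded e u := by
  have hkk : SH.kk e u < 0 := by
    by_contra hcon
    push Not at hcon
    have hsum : ∑ j, u j ≤ 3 * e := by
      unfold SH.kk at hcon
      have : ((∑ j, u j : ℕ) : ℤ) ≤ ((3 * e : ℕ) : ℤ) := by
        push_cast
        linarith
      exact_mod_cast this
    have := SH.red_ip hred (fun j => van_le hH.ne_zero hHe (hord j).1) hsum
    linarith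
  have he0 : 0 < e := deg_pos hH hHe
  have hne : ¬ (SH.ip e u e u = -1 ∧ SH.kk e u = 1) := fun h => by
    have := h.2
    linarith
  refine ⟨?_, ?_, fun i hi => ?_⟩
  · by_contra hcon
    push Not at hcon
    rcases CL.neg_cl hP hH hHe hord hneg hne with h | ⟨h1, j0, h2, h3⟩
    · have h0 : ∀ j, u j = 0 := by
        intro j
        by_contra hj
        have := h j hj
        have := hcon j
        omega
      unfold SH.ip at hneg
      have e1 : ∑ j, (u j : ℤ) * u j = 0 := Finset.sum_eq_zero fun j _ => by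
        rw [h0 j]
        norm_num
      rw [e1] at hneg
      have : (0 : ℤ) ≤ (e : ℤ) * e := mul_nonneg (Int.natCast_nonneg _) (Int.natCast_nonneg _)
      linarith
    · have h0 : ∀ j, j ≠ j0 → u j = 0 := by
        intro j hj
        by_contra hj'
        have := h3 j hj hj'
        have := hcon j
        omega
      unfold SH.ip at h1
      have e1 : ∑ j, (u j : ℤ) * u j = 1 := by
        rw [Finset.sum_eq_single j0]
        · rw [h2]
          norm_num
        · intro j _ hj
          rw [h0 j hj]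
          norm_num
        · intro h
          exact absurd (Finset.mem_univ _) h
      rw [e1] at h1
      have : (0 : ℤ) < (e : ℤ) * e := by
        have : (0 : ℤ) < e := by exact_mod_cast he0
        exact mul_pos this this
      linarith
  · obtain ⟨T, hT, -, h1⟩ := Pool.Agent.J4.H6.KC.sum_bound hred hneg hkk
    refine ⟨T, hT, ?_⟩
    rw [SH.interK_eq]
    linarith
  · obtain ⟨a1, a2, a3, a4, a5, a6, -⟩ :=
      Pool.Agent.J4.H6.KC.std_bound hP hH hHe hord hred hneg hi
    have a7 := Pool.Agent.J4.H6.KC.card_bound hP hH hHe hord hred hneg hi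
    rw [SH.inter_eq, SH.interK_eq]
    exact ⟨a1, a2, by linarith, a3, a5, a6, a7⟩

/-- **The theorem.** -/
theorem result (n : ℕ) (hn : 4 ≤ n) :
    ∃ Z : ℕ → MvPolynomial (Fin n × Fin 2) ℂ, (∀ k, Z k ≠ 0) ∧
      ∀ p : Fin n → Fin 2 → ℂ,
        (∀ k, MvPolynomial.eval (fun ij : Fin n × Fin 2 => p ij.1 ij.2) (Z k) ≠ 0) →
        -- the bound for the genus
        (∀ (F : MvPolynomial (Fin 3) ℂ) (d : ℕ) (m : Fin n → ℕ), Curve p F d m →
          inter d m d m < 0 → ∀ i, 3 ≤ m i → -(m i : ℤ) ≤ inter d m d m ∧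
            inter d m d m + interK d m ≤
              2 * ((m i : ℤ) - 1) * (4 * (m i : ℤ) ^ 2 - 6 * m i + 1)) ∧
        -- the closed cone of curves
        closedCone (curveClasses p) ⊆
          closedCone (minusOneClasses p ∪ positive n ∪ furtherClasses Z p) := by
  obtain ⟨r, rfl⟩ : ∃ r, n = r + 4 := ⟨n - 4, by omega⟩
  obtain ⟨Z, hZ, h⟩ := SH.exists_fam (Fin (r + 4) × Fin 2)
  refine ⟨Z, hZ, fun p hp => ⟨?_, closure_mono (Submodule.span_mono ?_)⟩⟩
  · intro F d m hC hneg i hi
    obtain ⟨g1, g2, g3⟩ := SH.curve_iff.1 hC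
    have hd := two_le_deg g1 g2 g3 (i := i) (by omega)
    rw [SH.inter_eq] at hneg ⊢
    rw [SH.interK_eq]
    have h1 := Pool.Agent.J4.H6.KC.genus_bound hd ((h _).1 hp) g1 g2 g3 hneg (j0 := i) rfl hi
    have h2 := Pool.Agent.J4.H6.KC.self_bound hd ((h _).1 hp) g1 g2 g3 hneg (j0 := i) rfl
      (by omega)
    exact ⟨h2, by linarith⟩
  rintro v (⟨C, d, w, hC, rfl⟩ | ⟨i, rfl⟩)
  · by_cases hneg : inter d w d w < 0
    · by_cases hne : MinusOne p C d w
      · refine Or.inl (Or.inl ⟨Or.inl ⟨C, d, w, hC, rfl⟩, ?_, ?_⟩)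
        · have h1 := hne.self
          unfold inter at h1
          have h2 : (((d : ℤ) * d - ∑ i, (w i : ℤ) * w i : ℤ) : ℝ) = ((-1 : ℤ) : ℝ) := by rw [h1]
          push_cast at h2
          simp only
          rw [Finset.sum_congr rfl fun i _ => sq (w i : ℝ), sq]
          exact h2
        · have h1 := hne.canonical
          unfold interK at h1
          have h2 : ((-3 * (d : ℤ) + ∑ i, (w i : ℤ) : ℤ) : ℝ) = ((-1 : ℤ) : ℝ) := by rw [h1]
          push_cast at h2
          exact h2
      · right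
        refine ⟨C, d, w, hC, hneg, hne, ?_, rfl⟩
        obtain ⟨g1, g2, g3⟩ := SH.curve_iff.1 hC
        rcases TT.irr_red d p ((h _).1 hp) w C g1 g2 g3 with ⟨-, a2, a3⟩ |
          ⟨P1, e, u, H, b1, b2, b3, b4, b5, b6, b7, b8, -⟩
        · exact absurd ⟨hC, by rw [SH.inter_eq, a2], by rw [SH.interK_eq, a3]⟩ hne
        · obtain ⟨-, -, q3⟩ := SH.quad_inv b5
          simp only at q3
          rw [SH.inter_eq, ← q3] at hneg
          exact ⟨P1, e, u, H, (h _).2 b1, SH.curve_iff.2 ⟨b2, b3, b4⟩, SH.chain_conv b5, b6, b8,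
            b7, bounded_of b1 b2 b3 b4 b6 hneg⟩
    · refine Or.inl (Or.inr ⟨Nat.cast_nonneg d, ?_⟩)
      push Not at hneg
      unfold inter at hneg
      have h2 : (0 : ℝ) ≤ (((d : ℤ) * d - ∑ i, (w i : ℤ) * w i : ℤ) : ℝ) := by exact_mod_cast hneg
      push_cast at h2
      simp only
      rw [Finset.sum_congr rfl fun i _ => sq (w i : ℝ), sq]
      linarith
  · refine Or.inl (Or.inl ⟨Or.inr ⟨i, rfl⟩, ?_, ?_⟩)
    · simp only
      rw [Finset.sum_eq_single i]
      · rw [Pi.single_eq_same]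
        norm_num
      · intro b _ hb
        rw [Pi.single_eq_of_ne hb]
        norm_num
      · intro h1
        exact absurd (Finset.mem_univ i) h1
    · simp only
      rw [Finset.sum_eq_single i]
      · rw [Pi.single_eq_same]
        norm_num
      · intro b _ hb
        rw [Pi.single_eq_of_ne hb]
      · intro h1
        exact absurd (Finset.mem_univ i) h1

end Pool.Agent.Results.MP_309968_ag.NegativeCurvesGenus
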