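import Mathlib
import Pool.Agent.J4.H6.NC.Cone

set_option autoImplicit false

/-!
# The closed cone of curves: only curves with ten large multiplicities can be missing

Let `X` be the blow-up of the complex projective plane at `n ≥ 4` very general points. The closed
cone of curves is contained in (so it is equal to) the closed convex cone generated by the positive
cone, by the classes of the `(-1)`-curves, and by the classes of the irreducible curves `C` with
`C ^ 2 < 0` which are not `(-1)`-curves; every such class is carried by finitely many quadratic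
transformations to the class `(e; u)` of an irreducible curve at other very general points which is
standard (the degree is at least the sum of any three multiplicities) and whose multiplicities, in
decreasing order `v 0 ≥ v 1 ≥ ⋯`, satisfy the inequalities of `Large`. In particular
`e < 5.4 * 10 ^ 16 * v 9 ^ 8 + 2 * ∑_{i ≥ 9} v i ^ 2`: at least ten of the multiplicities are large,
and for all `n` and `μ` there are finitely many such `(e; u)` with tenth multiplicity at most `μ`.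
-/

namespace Pool.Agent.Results.MP_309968_ag.NegativeCurvesTenth

open MvPolynomial Finset Pool.Agent.TH167 Pool.Agent.TH167.SHDefs

/-- The classes (in the coordinates degree, multiplicities) of the irreducible curves on the
blow-up of the plane at the points `p i = (p i 0 : p i 1 : 1)`: the class `(d; m)` of the proper
transform of an irreducible plane curve of degree `d` whose multiplicity at `p i` is exactly `m i`,
and the classes `(0; -e_i)` of the exceptional curves. -/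
def curveClasses {n : ℕ} (p : Fin n → Fin 2 → ℂ) : Set (ℝ × (Fin n → ℝ)) :=
  {v : ℝ × (Fin n → ℝ) | ∃ (F : MvPolynomial (Fin 3) ℂ) (d : ℕ) (m : Fin n → ℕ),
      Curve p F d m ∧ v = ((d : ℝ), fun i => (m i : ℝ))} ∪
    {v : ℝ × (Fin n → ℝ) | ∃ i : Fin n,
      v = ((0 : ℝ), (Pi.single i (-1 : ℝ) : Fin n → ℝ))}

/-- The classes of the `(-1)`-curves. -/
def minusOneClasses {n : ℕ} (p : Fin n → Fin 2 → ℂ) : Set (ℝ × (Fin n → ℝ)) :=
  {v | v ∈ curveClasses p ∧ v.1 ^ 2 - ∑ i, v.2 i ^ 2 = -1 ∧ -3 * v.1 + ∑ i, v.2 i = -1}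

/-- The positive cone. -/
def positive (n : ℕ) : Set (ℝ × (Fin n → ℝ)) := {v | 0 ≤ v.1 ∧ ∑ i, v.2 i ^ 2 ≤ v.1 ^ 2}

/-- The class is standard. -/
def Standard {n : ℕ} (d : ℕ) (w : Fin n → ℕ) : Prop :=
  ∀ i j k : Fin n, i ≠ j → i ≠ k → j ≠ k → w i + w j + w k ≤ d

/-- `v` lists the numbers `u i` in decreasing order, followed by zeros. -/
def Decreasing {n : ℕ} (u : Fin n → ℕ) (v : ℕ → ℕ) : Prop :=
  Antitone v ∧ (∀ i, n ≤ i → v i = 0) ∧ ∃ σ : Equiv.Perm (Fin n), ∀ i : Fin n, v i = u (σ i)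

/-- `2 m ^ 2 + 3 m + 3` plus the sum of the multiplicities `v i > m` with `k ≤ i < n`. -/
def G (k m n : ℕ) (v : ℕ → ℕ) : ℕ :=
  2 * m ^ 2 + 3 * m + 3 + ∑ i ∈ Ico k n, if m < v i then v i else 0

/-- The inequalities for the degree `e` and the decreasing multiplicities `v 0, …, v (n - 1)`. -/
def Large (n e : ℕ) (v : ℕ → ℕ) : Prop :=
  e < 54000000000000000 * v 9 ^ 8 + 2 * ∑ i ∈ Ico 9 n, v i ^ 2 ∧
    e < 3400000000000000 * v 8 ^ 8 ∧
    ∀ m : ℕ, 1 ≤ m → v 2 < 50 * G 8 m n v ∧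
      (v 2 < 100 * G 9 m n v ∨
        (e < v 0 + 2 * v 5 + 5 * G 9 m n v ∧
          3 * e < ∑ i ∈ range 9, v i + 180000 * G 9 m n v))

/-- Classes `(d; m)` of irreducible curves `C` with `C ^ 2 < 0` which are not `(-1)`-curves,
carried by quadratic transformations to a standard class `(e; u)`, `e ≤ d`, `u i ≤ m i`, of an
irreducible curve at other points (outside of the same hypersurfaces `Z k`), whose multiplicities,
in decreasing order, satisfy `Large`. -/
def furtherClasses {n : ℕ} (Z : ℕ → MvPolynomial (Fin n × Fin 2) ℂ) (p : Fin n → Fin 2 → ℂ) :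
    Set (ℝ × (Fin n → ℝ)) :=
  {x | ∃ (F : MvPolynomial (Fin 3) ℂ) (d : ℕ) (m : Fin n → ℕ),
    Curve p F d m ∧ inter d m d m < 0 ∧ ¬ MinusOne p F d m ∧
    (∃ (q : Fin n → Fin 2 → ℂ) (e : ℕ) (u : Fin n → ℕ) (v : ℕ → ℕ) (H : MvPolynomial (Fin 3) ℂ),
      (∀ k, MvPolynomial.eval (fun ij : Fin n × Fin 2 => q ij.1 ij.2) (Z k) ≠ 0) ∧
      Curve q H e u ∧ Relation.ReflTransGen Quadratic (d, m) (e, u) ∧ Standard e u ∧
      e ≤ d ∧ (∀ i, u i ≤ m i) ∧ Decreasing u v ∧ Large n e v) ∧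
    x = ((d : ℝ), fun i => (m i : ℝ))}

/-- The closed convex cone generated by a set. -/
def closedCone {n : ℕ} (S : Set (ℝ × (Fin n → ℝ))) : Set (ℝ × (Fin n → ℝ)) :=
  closure ((Submodule.span {c : ℝ // 0 ≤ c} S : Set (ℝ × (Fin n → ℝ))))

theorem finitely_many (n : ℕ) (hn : 4 ≤ n) (μ : ℕ) :
    {x : ℕ × (Fin n → ℕ) | Standard x.1 x.2 ∧
      ∃ v, Decreasing x.2 v ∧ Large n x.1 v ∧ v 9 ≤ μ}.Finite := by
  obtain ⟨N, hN⟩ : ∃ N, N = 54000000000000000 * μ ^ 8 + 2 * (n * μ ^ 2) := ⟨_, rfl⟩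
  have hfin : ((Set.Iio N) ×ˢ (Set.univ.pi fun _ : Fin n => Set.Iio N)).Finite :=
    (Set.finite_Iio N).prod (Set.Finite.pi fun _ => Set.finite_Iio N)
  apply hfin.subset
  rintro ⟨e, u⟩ ⟨hstd, v, hdec, ⟨h1, -, -⟩, h9⟩
  simp only at hstd hdec h1
  have hT : ∑ i ∈ Ico 9 n, v i ^ 2 ≤ n * μ ^ 2 := by
    calc ∑ i ∈ Ico 9 n, v i ^ 2 ≤ ∑ _i ∈ Ico 9 n, μ ^ 2 := Finset.sum_le_sum fun i hi =>
          Nat.pow_le_pow_left ((hdec.1 (mem_Ico.1 hi).1).trans h9) 2
      _ = (n - 9) * μ ^ 2 := by rw [Finset.sum_const, Nat.card_Ico, smul_eq_mul]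
      _ ≤ n * μ ^ 2 := Nat.mul_le_mul_right _ (Nat.sub_le _ _)
  have h8 : v 9 ^ 8 ≤ μ ^ 8 := Nat.pow_le_pow_left h9 8
  have he : e < N := by omega
  refine ⟨he, fun i _ => ?_⟩
  obtain ⟨j, hj⟩ : ∃ j : Fin n, j ≠ i := by
    by_cases h : i.1 = 0
    · exact ⟨⟨1, by omega⟩, fun h' => by rw [← h'] at h; simp at h⟩
    · exact ⟨⟨0, by omega⟩, fun h' => h (by rw [← h'])⟩
  obtain ⟨k, hk1, hk2⟩ : ∃ k : Fin n, k ≠ i ∧ k ≠ j := by
    by_contra hcon
    push Not at hcon
    have a : ∀ k : Fin n, k = i ∨ k = j := fun k => by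
      by_cases h : k = i
      · exact Or.inl h
      · exact Or.inr (hcon k h)
    have a0 := a ⟨0, by omega⟩
    have a1 := a ⟨1, by omega⟩
    have a2 := a ⟨2, by omega⟩
    simp only [Fin.ext_iff] at a0 a1 a2
    omega
  have := hstd i j k hj.symm hk1.symm hk2.symm
  change u i < N
  omega

/-- **The theorem.** -/
theorem result (n : ℕ) (hn : 4 ≤ n) :
    (∀ μ : ℕ, {x : ℕ × (Fin n → ℕ) | Standard x.1 x.2 ∧
      ∃ v, Decreasing x.2 v ∧ Large n x.1 v ∧ v 9 ≤ μ}.Finite) ∧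
    ∃ Z : ℕ → MvPolynomial (Fin n × Fin 2) ℂ, (∀ k, Z k ≠ 0) ∧
      ∀ p : Fin n → Fin 2 → ℂ,
        (∀ k, MvPolynomial.eval (fun ij : Fin n × Fin 2 => p ij.1 ij.2) (Z k) ≠ 0) →
        closedCone (curveClasses p) ⊆
          closedCone (minusOneClasses p ∪ positive n ∪ furtherClasses Z p) := by
  refine ⟨finitely_many n hn, ?_⟩
  obtain ⟨r, rfl⟩ : ∃ r, n = r + 4 := ⟨n - 4, by omega⟩
  obtain ⟨Z, hZ, h⟩ := SH.exists_fam (Fin (r + 4) × Fin 2)
  refine ⟨Z, hZ, fun p hp => closure_mono (Submodule.span_mono ?_)⟩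
  rintro v (⟨C, d, w, hC, rfl⟩ | ⟨i, rfl⟩)
  · by_cases hneg : inter d w d w < 0
    · by_cases hne : MinusOne p C d w
      · refine Or.inl (Or.inl ⟨Or.inl ⟨C, d, w, hC, rfl⟩, ?_, ?_⟩)
        · have h1 := hne.self
          unfold inter at h1
          have h2 : (((d : ℤ) * d - ∑ i, (w i : ℤ) * w i : ℤ) : ℝ) = ((-1 : ℤ) : ℝ) := by rw [h1]
          push_cast at h2
          simp only
          rw [Finset.sum_congr rfl fun i _ => sq (w i : ℝ), sq]
          exact h2
        · have h1 := hne.canonical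
          unfold interK at h1
          have h2 : ((-3 * (d : ℤ) + ∑ i, (w i : ℤ) : ℤ) : ℝ) = ((-1 : ℤ) : ℝ) := by rw [h1]
          push_cast at h2
          exact h2
      · right
        refine ⟨C, d, w, hC, hneg, hne, ?_, rfl⟩
        obtain ⟨g1, g2, g3⟩ := SH.curve_iff.1 hC
        rcases TT.irr_red d p ((h _).1 hp) w C g1 g2 g3 with ⟨-, a2, a3⟩ |
          ⟨P1, e, u, H, b1, b2, b3, b4, b5, b6, b7, b8, -⟩
        · exact absurd ⟨hC, by rw [SH.inter_eq, a2], by rw [SH.interK_eq, a3]⟩ hne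
        · obtain ⟨-, -, q3⟩ := SH.quad_inv b5
          simp only at q3
          rw [SH.inter_eq, ← q3] at hneg
          obtain ⟨v, hv⟩ := Pool.Agent.J4.H6.NC.exists_decreasing u
          exact ⟨P1, e, u, v, H, (h _).2 b1, SH.curve_iff.2 ⟨b2, b3, b4⟩, SH.chain_conv b5, b6, b8,
            b7, hv, Pool.Agent.J4.H6.NC.large_of_curve b1 b2 b3 b4 b6 hneg hv⟩
    · refine Or.inl (Or.inr ⟨Nat.cast_nonneg d, ?_⟩)
      push Not at hneg
      unfold inter at hneg
      have h2 : (0 : ℝ) ≤ (((d : ℤ) * d - ∑ i, (w i : ℤ) * w i : ℤ) : ℝ) := by exact_mod_cast hneg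
      push_cast at h2
      simp only
      rw [Finset.sum_congr rfl fun i _ => sq (w i : ℝ), sq]
      linarith
  · refine Or.inl (Or.inl ⟨Or.inr ⟨i, rfl⟩, ?_, ?_⟩)
    · simp only
      rw [Finset.sum_eq_single i]
      · rw [Pi.single_eq_same]
        norm_num
      · intro b _ hb
        rw [Pi.single_eq_of_ne hb]
        norm_num
      · intro h1
        exact absurd (Finset.mem_univ i) h1
    · simp only
      rw [Finset.sum_eq_single i]
      · rw [Pi.single_eq_same]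
        norm_num
      · intro b _ hb
        rw [Pi.single_eq_of_ne hb]
      · intro h1
        exact absurd (Finset.mem_univ i) h1

end Pool.Agent.Results.MP_309968_ag.NegativeCurvesTenth
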