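import Mathlib
import Pool.Agent.Results.MP_309968_ag.BoundaryRays
import Pool.Agent.J4.H9.LD.Fun

set_option autoImplicit false

/-!
# Nef classes with rare coefficients of all sizes; Nagata-Biran-Szemberg on blow-ups of the plane

For very general points of the plane we consider the classes `c H - ∑ x_j E_j` of self-intersection
zero, `x_j ≥ 0`. Let `R` be a finite set of numbers (the rare values); all nonzero coefficients
which are not in `R` are taken at least `96` times. A rare value `v` is given a scale `y v ≥ v`. The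
class is nef if for every rare value `v` the sum of `(104 + 5 #{j | x_j = w}) (y w) ^ 2` over the
rare values `w` with `y w ≤ y v` is at most the sum of the squares of the frequent coefficients
`x_j ≤ y v / 4`. There is no condition on the number of the rare coefficients, on the relations
between their sizes, or between the sizes of the frequent coefficients.

A special case: let `L = c H - ∑_{i ∈ S} x_i E_i` be any real class with
`c ^ 2 ≥ 220 ∑ x_i ^ 2` on the blow-up of the plane at the very general points of a finite set `S`.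
Then for all sets `T` of at least `96` and at least `3500 |S|` more very general points the
class `L - √(L ^ 2 / |T|) ∑_{j ∈ T} E_j` is nef: the multi-point Seshadri constant of `L` is
maximal, as predicted by the conjecture of Nagata, Biran and Szemberg.

Dually, if a plane curve of degree `e` has multiplicities `m_i` at the points, `S` and `T` are
disjoint sets of points, `|T| ≥ 96`, `u` is the mean value of the multiplicities on `T` and
`109 ∑_{i ∈ S} max (m_i, 4 u) ^ 2 ≤ |T| u ^ 2`, then `∑_{i ∈ S} m_i ^ 2 + |T| u ^ 2 ≤ e ^ 2`.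

Proof. Pieces are multisets of coefficients which fill all triangles of heights between `2 s` and
`8 s` with an arbitrary position of the upper vertex, and have area at least `96 s ^ 2`. Blocks of
equal coefficients are pieces. A union of pieces of arbitrary scales fills the plane. At most `24`
equal coefficients, at most `s`, can be put in the left corner of a triangle whose rest is
filled with pieces of scales at most `s / 4`; so they form a piece of scale `s` together with such
pieces of area at least `96 s ^ 2`. The frequent coefficients are distributed over the rare ones in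
the order of their scales.
-/

namespace Pool.Agent.Results.MP_309968_ag.RareCoefficients

open Pool.Agent.H932R3 Pool.Agent.H350R3 Pool.Agent.H350R3.GR Finset
open Pool.Agent.Results.MP_309968_ag.BoundaryRays (MultGE curveClasses curvCone cone_le)
open Pool.Agent.TH207.NC Pool.Agent.J4.H9.LD

/-- The coefficients are nonnegative; those which are not in the finite set `R` of positive numbers
are zero or taken at least `96` times; `y v ≥ v` for `v ∈ R`, and the rare values of scale at most
`y v` are dominated by the frequent coefficients which are at most `y v / 4`. -/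
def Admissible {n : ℕ} (x : Fin n → ℝ) : Prop :=
  (∀ j, 0 ≤ x j) ∧ ∃ (R : Finset ℝ) (y : ℝ → ℝ),
    (∀ v ∈ R, 0 < v ∧ v ≤ y v) ∧
    (∀ j, x j ∉ R → x j ≠ 0 → 96 ≤ (univ.filter fun i => x i = x j).card) ∧
    ∀ v ∈ R, ∑ w ∈ R.filter (fun w => y w ≤ y v),
        (104 + 5 * ((univ.filter fun i => x i = w).card : ℝ)) * y w ^ 2 ≤
      ∑ j ∈ univ.filter (fun j => x j ∉ R ∧ 4 * x j ≤ y v), x j ^ 2

theorem noForm_ext' {n r e : ℕ} {g : Fin r → Fin n} (hg : Function.Injective g) {m : Fin n → ℕ}
    {x : Fin r → Fin 2 → ℂ} (hx : NB.Emp (fun j => m (g j)) x e) :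
    NoForm (ptJ (Function.extend g x 0) m) e := by
  refine (noForm_of_emp hx).anti ?_
  unfold ptJ vIdeal
  refine le_iInf fun j => ?_
  have h2 := iInf_le (fun a => H932R2.cIdeal
    (fun _ : Fin 1 => (Function.extend g x 0 : Fin n → Fin 2 → ℂ) a 0)
    (Polynomial.C ((Function.extend g x 0 : Fin n → Fin 2 → ℂ) a 1)) (m a)) (g j)
  simp only [hg.extend_apply] at h2
  exact h2

/-- the inequality for all forms -/
theorem form_le (n : ℕ) : ∃ f : ℕ → MvPolynomial (Fin n × Fin 2) ℂ, (∀ k, f k ≠ 0) ∧
    ∀ p : Fin n → Fin 2 → ℂ,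
      (∀ k, MvPolynomial.eval (fun q : Fin n × Fin 2 => p q.1 q.2) (f k) ≠ 0) →
      ∀ c : Fin n → ℝ, Admissible c →
        ∀ (F : MvPolynomial (Fin 3) ℂ) (e : ℕ) (m : Fin n → ℕ), F.IsHomogeneous e → F ≠ 0 →
          (∀ i, MultGE (p i) F (m i)) →
          ∑ j, c j * (m j : ℝ) ≤ √(∑ j, c j ^ 2) * e := by
  classical
  obtain ⟨f, hf, hf'⟩ := exists_conds_all (K := ℂ) n
  refine ⟨f, hf, fun p hp c hadm F e m hF hF0 hm => ?_⟩
  obtain ⟨hnn, R, y, hR, hoft, hsm⟩ := hadm
  have hdom : Dominated c R y := ⟨fun v hv => (hR v hv).1, fun v hv => (hR v hv).2, hoft, hsm⟩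
  -- the transfer from general points
  have key0 : ∀ (r : ℕ) (emb : Fin r → Fin n), Function.Injective emb →
      (∀ j, j ∉ Set.range emb → c j = 0) →
      NB.Nf ℂ (fun k => c (emb k)) (√(∑ j, c j ^ 2)) →
      ∑ j, c j * (m j : ℝ) ≤ √(∑ j, c j ^ 2) * e := by
    intro r emb hemb h0 h1
    have hs1 : ∑ i, c (emb i) * (m (emb i) : ℝ) = ∑ j, c j * (m j : ℝ) :=
      Fintype.sum_of_injective emb hemb _ _ (fun j hj => by rw [h0 j hj, zero_mul]) fun i => rfl
    rw [← hs1]
    by_contra hcon
    push Not at hcon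
    obtain ⟨x, hx⟩ := h1 (fun k => m (emb k)) e hcon
    refine hF0 (hf' p hp e m ⟨_, noForm_ext' hemb hx⟩ F hF ?_)
    unfold ptJ vIdeal
    rw [Ideal.mem_iInf]
    intro i
    exact mem_of_support (p := p i) (hm i)
  have key : ∀ (ι : Type) [Fintype ι] (emb : ι → Fin n), Function.Injective emb →
      (∀ j, j ∉ Set.range emb → c j = 0) →
      (∃ μ : ℝ, TF 9 μ (fun i => c (emb i)) (√(∑ i, c (emb i) ^ 2) / 3)) →
      ∑ j, c j * (m j : ℝ) ≤ √(∑ j, c j ^ 2) * e := by
    intro ι _ emb hemb h0 ⟨μ, hμ⟩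
    have hs2 : ∑ i, c (emb i) ^ 2 = ∑ j, c j ^ 2 :=
      Fintype.sum_of_injective emb hemb _ _ (fun j hj => by rw [h0 j hj]; norm_num) fun i => rfl
    rw [hs2] at hμ
    let ε : Fin (Fintype.card ι) ≃ ι := (Fintype.equivFin _).symm
    have h1 := (hμ.equiv ε).nf
    have e3 : 3 * (√(∑ j, c j ^ 2) / 3) = √(∑ j, c j ^ 2) := by ring
    rw [e3] at h1
    refine key0 _ (fun k => emb (ε k)) (hemb.comp ε.injective) (fun j hj => h0 j ?_) h1
    rintro ⟨i, rfl⟩
    exact hj ⟨ε.symm i, by simp⟩
  by_cases hne : ∃ j, c j ≠ 0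
  · refine key {j // c j ≠ 0} (fun i => i.1) Subtype.val_injective (fun j hj => ?_)
      (hdom.form hnn hne)
    by_contra h
    exact hj ⟨⟨j, h⟩, rfl⟩
  · push Not at hne
    have h1 : ∑ j, c j * (m j : ℝ) = 0 := Finset.sum_eq_zero fun j _ => by rw [hne j, zero_mul]
    rw [h1]
    positivity

/-- the coefficients `x` on `S` and `u` on `T` -/
noncomputable def mix {n : ℕ} (S T : Finset (Fin n)) (x : Fin n → ℝ) (u : ℝ) (j : Fin n) : ℝ :=
  if j ∈ T then u else if j ∈ S then x j else 0

theorem sum_mix {n : ℕ} {S T : Finset (Fin n)} (hST : Disjoint S T) (x : Fin n → ℝ) (u : ℝ)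
    (g : ℝ → Fin n → ℝ) (hg : ∀ j, g 0 j = 0) :
    ∑ j, g (mix S T x u j) j = ∑ i ∈ S, g (x i) i + ∑ j ∈ T, g u j := by
  classical
  rw [← Finset.sum_subset (Finset.subset_univ (S ∪ T)), Finset.sum_union hST]
  · congr 1
    · refine Finset.sum_congr rfl fun i hi => ?_
      rw [mix, if_neg (Finset.disjoint_left.1 hST hi), if_pos hi]
    · refine Finset.sum_congr rfl fun i hi => ?_
      rw [mix, if_pos hi]
  · intro j _ hj
    rw [Finset.mem_union, not_or] at hj
    rw [mix, if_neg hj.2, if_neg hj.1, hg]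

/-- arbitrary coefficients on `S` and a large set `T` of equal ones -/
theorem admissible_mix {n : ℕ} {S T : Finset (Fin n)} (hST : Disjoint S T) {x : Fin n → ℝ}
    (hx : ∀ i ∈ S, 0 ≤ x i) {u : ℝ} (hu : 0 < u) (hT : 96 ≤ T.card)
    (h : 109 * ∑ i ∈ S, max (x i) (4 * u) ^ 2 ≤ T.card * u ^ 2) :
    Admissible (mix S T x u) := by
  classical
  have hmT : ∀ j ∈ T, mix S T x u j = u := fun j hj => by rw [mix, if_pos hj]
  have hmS : ∀ j ∈ S, mix S T x u j = x j := fun j hj => by
    rw [mix, if_neg (Finset.disjoint_left.1 hST hj), if_pos hj]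
  have hcases : ∀ j, mix S T x u j = 0 ∨ mix S T x u j = u ∨ j ∈ S ∧ mix S T x u j = x j := by
    intro j
    by_cases h1 : j ∈ T
    · exact Or.inr (Or.inl (hmT j h1))
    · by_cases h2 : j ∈ S
      · exact Or.inr (Or.inr ⟨h2, hmS j h2⟩)
      · left
        rw [mix, if_neg h1, if_neg h2]
  refine ⟨fun j => ?_, (S.image x).filter (fun v => v ≠ 0 ∧ v ≠ u), fun v => max v (4 * u),
    ?_, ?_, ?_⟩
  · rcases hcases j with h1 | h1 | ⟨h1, h2⟩
    · rw [h1]
    · rw [h1]; exact hu.le
    · rw [h2]; exact hx j h1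
  · intro v hv
    rw [Finset.mem_filter, Finset.mem_image] at hv
    obtain ⟨⟨i, hi, rfl⟩, h0, -⟩ := hv
    exact ⟨lt_of_le_of_ne (hx i hi) (Ne.symm h0), le_max_left _ _⟩
  · intro j hj hj0
    have hju : mix S T x u j = u := by
      rcases hcases j with h1 | h1 | ⟨h1, h2⟩
      · exact absurd h1 hj0
      · exact h1
      · by_contra h3
        apply hj
        rw [Finset.mem_filter, Finset.mem_image]
        exact ⟨⟨j, h1, h2.symm⟩, hj0, h3⟩
    refine hT.trans (Finset.card_le_card fun i hi => ?_)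
    rw [Finset.mem_filter]
    exact ⟨Finset.mem_univ i, by rw [hju, hmT i hi]⟩
  · intro v hv
    have hfib : ∀ w ∈ (S.image x).filter (fun v => v ≠ 0 ∧ v ≠ u),
        (univ.filter fun i => mix S T x u i = w) = S.filter fun i => x i = w := by
      intro w hw
      rw [Finset.mem_filter] at hw
      ext i
      rw [Finset.mem_filter, Finset.mem_filter]
      constructor
      · rintro ⟨-, h1⟩
        rcases hcases i with h2 | h2 | ⟨h2, h3⟩
        · exact absurd (h1.symm.trans h2) hw.2.1
        · exact absurd (h1.symm.trans h2) hw.2.2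
        · exact ⟨h2, h3.symm.trans h1⟩
      · rintro ⟨h1, h2⟩
        exact ⟨Finset.mem_univ i, (hmS i h1).trans h2⟩
    -- the rare side
    have h1 : ∑ w ∈ ((S.image x).filter (fun v => v ≠ 0 ∧ v ≠ u)).filter
        (fun w => max w (4 * u) ≤ max v (4 * u)),
        (104 + 5 * ((univ.filter fun i => mix S T x u i = w).card : ℝ)) * max w (4 * u) ^ 2 ≤
        109 * ∑ i ∈ S, max (x i) (4 * u) ^ 2 := by
      have h2 : ∀ w ∈ S.image x, (109 : ℝ) * ((S.filter fun i => x i = w).card : ℝ) *
          max w (4 * u) ^ 2 = 109 * ∑ i ∈ S.filter (fun i => x i = w), max (x i) (4 * u) ^ 2 := by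
        intro w _
        rw [Finset.sum_congr rfl (g := fun _ => max w (4 * u) ^ 2) fun i hi => by
          rw [(Finset.mem_filter.1 hi).2], Finset.sum_const, nsmul_eq_mul, mul_assoc]
      have h3 : ∑ i ∈ S, max (x i) (4 * u) ^ 2 =
          ∑ w ∈ S.image x, ∑ i ∈ S.filter (fun i => x i = w), max (x i) (4 * u) ^ 2 :=
        (Finset.sum_fiberwise_of_maps_to (fun i hi => Finset.mem_image_of_mem x hi) _).symm
      rw [h3, Finset.mul_sum, ← Finset.sum_congr rfl h2]
      refine le_trans (Finset.sum_le_sum (g := fun w =>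
        (109 : ℝ) * ((S.filter fun i => x i = w).card : ℝ) * max w (4 * u) ^ 2) fun w hw => ?_)
        (Finset.sum_le_sum_of_subset_of_nonneg ((Finset.filter_subset _ _).trans
          (Finset.filter_subset _ _)) fun w _ _ => by positivity)
      have hw' := (Finset.mem_filter.1 hw).1
      rw [hfib w hw']
      apply mul_le_mul_of_nonneg_right _ (sq_nonneg _)
      have h4 : (1 : ℝ) ≤ ((S.filter fun i => x i = w).card : ℝ) := by
        rw [Finset.mem_filter, Finset.mem_image] at hw'
        obtain ⟨⟨i, hi, hiw⟩, -⟩ := hw'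
        have : 0 < (S.filter fun i => x i = w).card :=
          Finset.card_pos.2 ⟨i, Finset.mem_filter.2 ⟨hi, hiw⟩⟩
        exact_mod_cast this
      linarith
    -- the frequent side
    have h5 : (T.card : ℝ) * u ^ 2 ≤ ∑ j ∈ univ.filter (fun j =>
        mix S T x u j ∉ (S.image x).filter (fun v => v ≠ 0 ∧ v ≠ u) ∧
          4 * mix S T x u j ≤ max v (4 * u)), mix S T x u j ^ 2 := by
      have h6 : ∑ j ∈ T, mix S T x u j ^ 2 = T.card * u ^ 2 := by
        rw [Finset.sum_congr rfl fun j hj => by rw [hmT j hj], Finset.sum_const, nsmul_eq_mul]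
      rw [← h6]
      refine Finset.sum_le_sum_of_subset_of_nonneg (fun j hj => ?_) fun _ _ _ => sq_nonneg _
      rw [Finset.mem_filter, hmT j hj, Finset.mem_filter]
      exact ⟨Finset.mem_univ j, fun h => h.2.2 rfl, le_max_right _ _⟩
    exact h1.trans (h.trans h5)

theorem result (n : ℕ) :
    ∃ f : ℕ → MvPolynomial (Fin n × Fin 2) ℂ, (∀ k, f k ≠ 0) ∧
      ∀ p : Fin n → Fin 2 → ℂ,
        (∀ k, MvPolynomial.eval (fun q : Fin n × Fin 2 => p q.1 q.2) (f k) ≠ 0) →
        -- the nef classes
        (∀ x : Fin n → ℝ, Admissible x →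
          ∀ z ∈ curvCone p, ∑ j, x j * z.2 j ≤ √(∑ j, x j ^ 2) * z.1) ∧
        -- Seshadri constants of arbitrary classes
        (∀ (c : ℝ) (x : Fin n → ℝ) (S T : Finset (Fin n)), 0 ≤ c → (∀ i ∈ S, 0 ≤ x i) →
          220 * ∑ i ∈ S, x i ^ 2 ≤ c ^ 2 → Disjoint S T → 96 ≤ T.card →
          3500 * S.card ≤ T.card →
          ∀ z ∈ curvCone p, ∑ i ∈ S, x i * z.2 i +
            √((c ^ 2 - ∑ i ∈ S, x i ^ 2) / T.card) * ∑ j ∈ T, z.2 j ≤ c * z.1) ∧
        -- the inequality for curves
        ∀ (F : MvPolynomial (Fin 3) ℂ) (e : ℕ) (m : Fin n → ℕ), F.IsHomogeneous e → F ≠ 0 →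
          (∀ i, MultGE (p i) F (m i)) →
          ∀ (S T : Finset (Fin n)) (u : ℝ), Disjoint S T → 96 ≤ T.card →
            u = (∑ j ∈ T, (m j : ℝ)) / T.card →
            109 * ∑ i ∈ S, max (m i : ℝ) (4 * u) ^ 2 ≤ T.card * u ^ 2 →
            ∑ i ∈ S, (m i : ℝ) ^ 2 + T.card * u ^ 2 ≤ (e : ℝ) ^ 2 := by
  classical
  obtain ⟨f, hf, hf'⟩ := form_le n
  refine ⟨f, hf, fun p hp => ?_⟩
  have hnef : ∀ x : Fin n → ℝ, Admissible x →
      ∀ z ∈ curvCone p, ∑ j, x j * z.2 j ≤ √(∑ j, x j ^ 2) * z.1 := by
    intro c hadm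
    have h := cone_le (p := p) (l := c) (g := id) (c := √(∑ j, c j ^ 2)) hadm.1
      fun F e m hF he hF0 hm => by
        have h1 := hf' p hp c hadm F e m hF hF0 hm
        simp only [id]
        linarith
    simpa using h
  refine ⟨hnef, ?_, ?_⟩
  · intro c x S T hc hx hcx hST hT hTS z hz
    obtain ⟨q, hq⟩ : ∃ q, q = ∑ i ∈ S, x i ^ 2 := ⟨_, rfl⟩
    rw [← hq] at hcx ⊢
    have hq0 : 0 ≤ q := by rw [hq]; positivity
    have hT0 : (0 : ℝ) < T.card := by
      have : 0 < T.card := by omega
      exact_mod_cast this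
    obtain ⟨u, hu⟩ : ∃ u, u = √((c ^ 2 - q) / T.card) := ⟨_, rfl⟩
    rw [← hu]
    have hcq : 0 ≤ c ^ 2 - q := by nlinarith
    have hu2 : u ^ 2 = (c ^ 2 - q) / T.card := by
      rw [hu, Real.sq_sqrt (by positivity)]
    have hTu : T.card * u ^ 2 = c ^ 2 - q := by
      rw [hu2]
      field_simp
    have hu0 : 0 ≤ u := by rw [hu]; exact Real.sqrt_nonneg _
    have hsumsq : ∑ j, mix S T x u j ^ 2 = c ^ 2 := by
      rw [sum_mix hST x u (fun t _ => t ^ 2) (fun _ => by norm_num), ← hq, Finset.sum_const,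
        nsmul_eq_mul, hTu]
      ring
    have hsum : ∑ j, mix S T x u j * z.2 j = ∑ i ∈ S, x i * z.2 i + u * ∑ j ∈ T, z.2 j := by
      rw [sum_mix hST x u (fun t j => t * z.2 j) (fun _ => by ring), Finset.mul_sum]
    have hadm : Admissible (mix S T x u) := by
      rcases hu0.eq_or_lt with h0 | h0
      · -- everything is zero
        have h1 : c ^ 2 - q = 0 := by rw [← hTu, ← h0]; ring
        have h2 : q = 0 := by nlinarith
        have h3 : ∀ i ∈ S, x i = 0 := by
          intro i hi
          have h4 : x i ^ 2 ≤ q := by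
            rw [hq]
            exact Finset.single_le_sum (f := fun i => x i ^ 2) (fun _ _ => sq_nonneg _) hi
          rw [h2] at h4
          exact pow_eq_zero_iff (two_ne_zero) |>.1 (le_antisymm h4 (sq_nonneg _))
        have h5 : ∀ j, mix S T x u j = 0 := by
          intro j
          rw [mix, ← h0]
          split_ifs with h6 h7
          · rfl
          · exact h3 j h7
          · rfl
        refine ⟨fun j => (h5 j).ge, ∅, fun v => v, fun v hv => absurd hv (Finset.notMem_empty v),
          fun j _ hj => absurd (h5 j) hj, fun v hv => absurd hv (Finset.notMem_empty v)⟩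
      · refine admissible_mix hST hx h0 hT ?_
        have h1 : ∑ i ∈ S, max (x i) (4 * u) ^ 2 ≤ q + S.card * (16 * u ^ 2) := by
          rw [hq, ← nsmul_eq_mul, ← Finset.sum_const, ← Finset.sum_add_distrib]
          refine Finset.sum_le_sum fun i hi => ?_
          rcases max_choice (x i) (4 * u) with h2 | h2
          · rw [h2]
            have : 0 ≤ 16 * u ^ 2 := by positivity
            linarith
          · rw [h2]
            have := sq_nonneg (x i)
            nlinarith
        have h2 : 3500 * (S.card : ℝ) ≤ T.card := by exact_mod_cast hTS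
        have h3 : 3500 * (S.card : ℝ) * u ^ 2 ≤ c ^ 2 - q := by
          rw [← hTu]
          exact mul_le_mul_of_nonneg_right h2 (sq_nonneg u)
        rw [hTu]
        nlinarith
    have h := hnef _ hadm z hz
    rw [hsumsq, hsum, Real.sqrt_sq hc] at h
    exact h
  · intro F e m hF hF0 hm S T u hST hT hu h
    have hT0 : (0 : ℝ) < T.card := by
      have : 0 < T.card := by omega
      exact_mod_cast this
    have hu0 : 0 ≤ u := by rw [hu]; positivity
    have hsumT : ∑ j ∈ T, (m j : ℝ) = T.card * u := by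
      rw [hu]
      field_simp
    rcases hu0.eq_or_lt with h0 | h0
    · -- all multiplicities are zero
      have h1 : ∑ i ∈ S, max (m i : ℝ) (4 * u) ^ 2 ≤ 0 := by
        rw [← h0] at h ⊢
        linarith
      have h2 : ∑ i ∈ S, (m i : ℝ) ^ 2 ≤ ∑ i ∈ S, max (m i : ℝ) (4 * u) ^ 2 :=
        Finset.sum_le_sum fun i _ =>
          pow_le_pow_left₀ (Nat.cast_nonneg _) (le_max_left _ _) 2
      rw [← h0]
      have : (0 : ℝ) ≤ (e : ℝ) ^ 2 := by positivity
      linarith
    · have hadm : Admissible (mix S T (fun i => (m i : ℝ)) u) :=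
        admissible_mix hST (fun i _ => Nat.cast_nonneg _) h0 hT h
      have h1 := hf' p hp _ hadm F e m hF hF0 hm
      obtain ⟨Q, hQ⟩ : ∃ Q, Q = ∑ i ∈ S, (m i : ℝ) ^ 2 + T.card * u ^ 2 := ⟨_, rfl⟩
      have hsumsq : ∑ j, mix S T (fun i => (m i : ℝ)) u j ^ 2 = Q := by
        rw [sum_mix hST _ u (fun t _ => t ^ 2) (fun _ => by norm_num), Finset.sum_const,
          nsmul_eq_mul, hQ]
      have hsum : ∑ j, mix S T (fun i => (m i : ℝ)) u j * (m j : ℝ) = Q := by
        rw [sum_mix hST _ u (fun t j => t * (m j : ℝ)) (fun _ => by ring), ← Finset.mul_sum,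
          hsumT, hQ]
        congr 1
        · exact Finset.sum_congr rfl fun i _ => by ring
        · ring
      rw [hsumsq, hsum] at h1
      rw [← hQ]
      have hQ0 : 0 < Q := by
        rw [hQ]
        have h2 : 0 ≤ ∑ i ∈ S, (m i : ℝ) ^ 2 := by positivity
        have : 0 < (T.card : ℝ) * u ^ 2 := mul_pos hT0 (pow_pos h0 2)
        linarith
      have hs : √Q * √Q = Q := Real.mul_self_sqrt hQ0.le
      have hs0 : 0 < √Q := Real.sqrt_pos.2 hQ0
      have h2 : √Q ≤ e := by
        have : √Q * √Q ≤ √Q * e := by rw [hs]; exact h1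
        exact le_of_mul_le_mul_left this hs0
      nlinarith

end Pool.Agent.Results.MP_309968_ag.RareCoefficients
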